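import Pool.Agent.L5helper28.CA.Cls
import Pool.Agent.L5helper28.IH.Diag

/-!
# External products of correspondences between different varieties
-/

set_option autoImplicit false
set_option linter.unusedSectionVars false

open CategoryTheory AlgebraicGeometry

universe u v

namespace Pool.Agent.L5helper28.HI

open Pool.Agent.H914 Pool.Agent.H914.VarClass Pool.Agent.H914.VarClass.Obj
  Pool.Agent.H914.WeilCohomology

noncomputable section

variable {k : Type u} [Field k] {𝒱 : VarClass k} {ops : CycleOps 𝒱}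
  {W : WeilCohomology.{u, v} ops} {Y Y' Z Z' : 𝒱.Obj}

/-- The projection `(Y × Z) × (Y' × Z') → Y × Y'`. -/
def r1 (Y Z Y' Z' : 𝒱.Obj) : (Y.prod Z).prod (Y'.prod Z') ⟶ Y.prod Y' :=
  Obj.lift (fst (Y.prod Z) (Y'.prod Z') ≫ fst Y Z) (snd (Y.prod Z) (Y'.prod Z') ≫ fst Y' Z')

/-- The projection `(Y × Z) × (Y' × Z') → Z × Z'`. -/
def r2 (Y Z Y' Z' : 𝒱.Obj) : (Y.prod Z).prod (Y'.prod Z') ⟶ Z.prod Z' :=
  Obj.lift (fst (Y.prod Z) (Y'.prod Z') ≫ snd Y Z) (snd (Y.prod Z) (Y'.prod Z') ≫ snd Y' Z')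

theorem r1_tmul (a : W.H Y) (a' : W.H Y') :
    W.map (r1 Y Z Y' Z') (W.map (fst Y Y') a * W.map (snd Y Y') a') =
      W.map (fst _ _) (W.map (fst Y Z) a) * W.map (snd _ _) (W.map (fst Y' Z') a') := by
  have e1 : r1 Y Z Y' Z' ≫ fst Y Y' = fst (Y.prod Z) (Y'.prod Z') ≫ fst Y Z := Obj.lift_fst _ _
  have e2 : r1 Y Z Y' Z' ≫ snd Y Y' = snd (Y.prod Z) (Y'.prod Z') ≫ fst Y' Z' := Obj.lift_snd _ _
  rw [map_mul (W.map (r1 Y Z Y' Z')), ← W.map_comp, ← W.map_comp, e1, e2, W.map_comp, W.map_comp]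

theorem r2_tmul (b : W.H Z) (b' : W.H Z') :
    W.map (r2 Y Z Y' Z') (W.map (fst Z Z') b * W.map (snd Z Z') b') =
      W.map (fst _ _) (W.map (snd Y Z) b) * W.map (snd _ _) (W.map (snd Y' Z') b') := by
  have e1 : r2 Y Z Y' Z' ≫ fst Z Z' = fst (Y.prod Z) (Y'.prod Z') ≫ snd Y Z := Obj.lift_fst _ _
  have e2 : r2 Y Z Y' Z' ≫ snd Z Z' = snd (Y.prod Z) (Y'.prod Z') ≫ snd Y' Z' := Obj.lift_snd _ _
  rw [map_mul (W.map (r2 Y Z Y' Z')), ← W.map_comp, ← W.map_comp, e1, e2, W.map_comp, W.map_comp]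

theorem push_ext (A : W.H (Y.prod Y')) (B : W.H (Z.prod Z')) :
    W.push (snd (Y.prod Z) (Y'.prod Z')) (W.map (r1 Y Z Y' Z') A * W.map (r2 Y Z Y' Z') B) =
      W.map (fst Y' Z') (W.push (snd Y Y') A) * W.map (snd Y' Z') (W.push (snd Z Z') B) := by
  refine W.kunneth_induction (p := fun A =>
    W.push (snd (Y.prod Z) (Y'.prod Z')) (W.map (r1 Y Z Y' Z') A * W.map (r2 Y Z Y' Z') B) =
      W.map (fst Y' Z') (W.push (snd Y Y') A) * W.map (snd Y' Z') (W.push (snd Z Z') B)) ?_ ?_ A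
  · intro a b ha hb
    rw [map_add, add_mul, map_add, ha, hb, map_add, map_add, add_mul]
  intro i j a ha a' ha'
  refine W.kunneth_induction (p := fun B =>
    W.push (snd (Y.prod Z) (Y'.prod Z')) (W.map (r1 Y Z Y' Z')
      (W.map (fst Y Y') a * W.map (snd Y Y') a') * W.map (r2 Y Z Y' Z') B) =
      W.map (fst Y' Z') (W.push (snd Y Y') (W.map (fst Y Y') a * W.map (snd Y Y') a')) *
        W.map (snd Y' Z') (W.push (snd Z Z') B)) ?_ ?_ B
  · intro a b ha hb
    rw [map_add, mul_add, map_add, ha, hb, map_add, map_add, mul_add]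
  intro l m b hb b' _
  rw [r1_tmul, r2_tmul]
  have hsw : W.map (snd _ _) (W.map (fst Y' Z') a') * W.map (fst _ _) (W.map (snd Y Z) b) =
      (-1 : W.K) ^ (j * l) • (W.map (fst (Y.prod Z) (Y'.prod Z')) (W.map (snd Y Z) b) *
        W.map (snd (Y.prod Z) (Y'.prod Z')) (W.map (fst Y' Z') a')) :=
    W.comm (W.map_mem _ (W.map_mem _ ha')) (W.map_mem _ (W.map_mem _ hb))
  have e1 : W.map (fst _ _) (W.map (fst Y Z) a) * W.map (snd _ _) (W.map (fst Y' Z') a') *
      (W.map (fst (Y.prod Z) (Y'.prod Z')) (W.map (snd Y Z) b) *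
        W.map (snd (Y.prod Z) (Y'.prod Z')) (W.map (snd Y' Z') b')) =
      (-1 : W.K) ^ (j * l) • (W.map (fst _ _) (W.map (fst Y Z) a * W.map (snd Y Z) b) *
        W.map (snd _ _) (W.map (fst Y' Z') a' * W.map (snd Y' Z') b')) := by
    rw [map_mul (W.map (fst (Y.prod Z) (Y'.prod Z'))),
      map_mul (W.map (snd (Y.prod Z) (Y'.prod Z'))),
      mul_assoc, ← mul_assoc (W.map (snd _ _) (W.map (fst Y' Z') a')), hsw, smul_mul_assoc,
      mul_smul_comm, mul_assoc, mul_assoc]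
  rw [e1, map_smul, push_snd, W.tr_prod, push_snd, push_snd, map_smul, map_smul, smul_mul_assoc,
    mul_smul_comm, smul_smul, smul_smul]
  by_cases hl : l = 2 * Z.dim
  · have hs : (-1 : W.K) ^ (j * l) = 1 := by
      rw [hl, mul_left_comm, pow_mul]
      simp
    rw [hs, one_mul]
  · rw [W.tr_eq_zero hb hl]
    simp

/-- The external product of correspondences. -/
theorem corr_ext (c : W.H (Y.prod Y')) {p : ℕ} {d : W.H (Z.prod Z')} (hd : d ∈ W.gr _ (2 * p))
    (a : W.H Y) (b : W.H Z) :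
    W.corr (W.map (r1 Y Z Y' Z') c * W.map (r2 Y Z Y' Z') d)
        (W.map (fst Y Z) a * W.map (snd Y Z) b) =
      W.map (fst Y' Z') (W.corr c a) * W.map (snd Y' Z') (W.corr d b) := by
  rw [corr_apply, corr_apply, corr_apply, ← push_ext]
  congr 1
  have e1 : W.map (fst _ _) (W.map (fst Y Z) a) = W.map (r1 Y Z Y' Z') (W.map (fst Y Y') a) := by
    have := r1_tmul (W := W) (Z := Z) (Y' := Y') (Z' := Z') a 1
    rw [map_one, map_one, map_one, mul_one, mul_one] at this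
    exact this.symm
  have e2 : W.map (fst _ _) (W.map (snd Y Z) b) = W.map (r2 Y Z Y' Z') (W.map (fst Z Z') b) := by
    have := r2_tmul (W := W) (Y := Y) (Y' := Y') (Z' := Z') b 1
    rw [map_one, map_one, map_one, mul_one, mul_one] at this
    exact this.symm
  rw [map_mul (W.map (fst (Y.prod Z) (Y'.prod Z'))), e1, e2, map_mul (W.map (r1 Y Z Y' Z')),
    map_mul (W.map (r2 Y Z Y' Z')), mul_assoc, ← mul_assoc (W.map (r2 Y Z Y' Z') d),
    W.even_comm (W.map_mem _ hd) (W.map (r1 Y Z Y' Z') _)]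
  simp only [mul_assoc]

/-- The correspondence `c × Δ` on `(Y × V) × (Y' × V)`. -/
def cx (c : W.H (Y.prod Y')) (V : 𝒱.Obj) : W.H ((Y.prod V).prod (Y'.prod V)) :=
  W.map (r1 Y V Y' V) c * W.map (r2 Y V Y' V) (W.push (diag V) 1)

theorem diag_gr (V : 𝒱.Obj) : W.push (diag V) (1 : W.H V) ∈ W.gr (V.prod V) (2 * V.dim) := by
  have h := push_mem (W := W) (diag V) (W.one_mem V)
  rw [dim_prod] at h
  have e : ((0 : ℕ) : ℤ) + 2 * (((V.dim + V.dim : ℕ) : ℤ) - V.dim) = ((2 * V.dim : ℕ) : ℤ) := by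
    push_cast
    ring
  rwa [e, grZ_natCast] at h

theorem corr_cx (c : W.H (Y.prod Y')) (V : 𝒱.Obj) (a : W.H Y) (b : W.H V) :
    W.corr (cx c V) (W.map (fst Y V) a * W.map (snd Y V) b) =
      W.map (fst Y' V) (W.corr c a) * W.map (snd Y' V) b := by
  rw [cx, corr_ext c (diag_gr V) a b, W.corr_diag, one_mul]

/-- the sum of the compositions of the external products is the identity -/
theorem sum_cx {m : ℕ} {P : Fin m → 𝒱.Obj} {Q : 𝒱.Obj} {u : ∀ a, W.H (Q.prod (P a))}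
    {v : ∀ a, W.H ((P a).prod Q)} (h : ∀ x, ∑ a, W.corr (v a) (W.corr (u a) x) = x)
    (V : 𝒱.Obj) (x : W.H (Q.prod V)) :
    ∑ a, W.corr (cx (v a) V) (W.corr (cx (u a) V) x) = x := by
  have h1 : (∑ a, (W.corr (cx (v a) V)) ∘ₗ (W.corr (cx (u a) V))) =
      (LinearMap.id : W.H (Q.prod V) →ₗ[W.K] W.H (Q.prod V)) := by
    apply ext_kunneth_lin
    intro a b
    rw [LinearMap.sum_apply, LinearMap.id_apply]
    simp only [LinearMap.comp_apply]
    rw [Finset.sum_congr rfl fun i _ => by rw [corr_cx, corr_cx]]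
    rw [← Finset.sum_mul, ← map_sum, h]
  have h2 := congrArg (fun f => f x) h1
  simp only [LinearMap.sum_apply, LinearMap.comp_apply, LinearMap.id_apply] at h2
  exact h2

end

end Pool.Agent.L5helper28.HI
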