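import Pool.Agent.L5helper28.HG.Main

/-!
# Products of members of a family in any order
-/

set_option autoImplicit false
set_option linter.unusedSectionVars false

open CategoryTheory AlgebraicGeometry

universe u v

namespace Pool.Agent.L5helper28.HI

open Pool.Agent.H914 Pool.Agent.H914.VarClass Pool.Agent.H914.VarClass.Obj
  Pool.Agent.H914.WeilCohomology
open Pool.Agent.Y121 Pool.Agent.Y121.AHS Pool.Agent.N996 Pool.Agent.N996.FP
open Pool.Agent.Y133.Half (pw ClassPred Sys prod_hom_ext)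
open Pool.Agent.L5helper28.CA (AllIn prod_in snd_in in_of_retract)
open Pool.Agent.L5helper28.IF (Spl spH)

noncomputable section

variable {k : Type u} [Field k] {𝒱 : VarClass k} {ops : CycleOps 𝒱} {T : HodgeTheory ops}
  {A B C D P Q X : 𝒱.Obj}

/-- `A` is a retract of `B`. -/
def Ret (A B : 𝒱.Obj) : Prop := ∃ (f : A ⟶ B) (g : B ⟶ A), f ≫ g = 𝟙 A

theorem Ret.refl (A : 𝒱.Obj) : Ret A A := ⟨𝟙 _, 𝟙 _, Category.comp_id _⟩

theorem Ret.trans (h : Ret A B) (h' : Ret B C) : Ret A C := by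
  obtain ⟨f, g, h⟩ := h
  obtain ⟨f', g', h'⟩ := h'
  refine ⟨f ≫ f', g' ≫ g, ?_⟩
  rw [Category.assoc, ← Category.assoc f' g' g, h', Category.id_comp, h]

theorem Ret.allIn {Q : ClassPred T.W} (h : Ret A B) (hB : AllIn T Q B) : AllIn T Q A := by
  obtain ⟨f, g, h⟩ := h
  exact in_of_retract f g h hB

theorem Ret.prod (h : Ret A B) (h' : Ret C D) : Ret (A.prod C) (B.prod D) := by
  obtain ⟨f, g, h⟩ := h
  obtain ⟨f', g', h'⟩ := h'
  refine ⟨Obj.lift (fst _ _ ≫ f) (snd _ _ ≫ f'), Obj.lift (fst _ _ ≫ g) (snd _ _ ≫ g'), ?_⟩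
  apply prod_hom_ext
  · rw [Category.assoc, lift_fst, ← Category.assoc, lift_fst, Category.assoc, h,
      Category.comp_id, Category.id_comp]
  · rw [Category.assoc, lift_snd, ← Category.assoc, lift_snd, Category.assoc, h',
      Category.comp_id, Category.id_comp]

theorem Ret.swap (A B : 𝒱.Obj) : Ret (A.prod B) (B.prod A) :=
  ⟨Obj.lift (snd _ _) (fst _ _), Obj.lift (snd _ _) (fst _ _), by
    apply prod_hom_ext <;> simp⟩

theorem Ret.assoc (A B C : 𝒱.Obj) : Ret ((A.prod B).prod C) (A.prod (B.prod C)) :=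
  ⟨Obj.lift (fst _ _ ≫ fst _ _) (Obj.lift (fst _ _ ≫ snd _ _) (snd _ _)),
    Obj.lift (Obj.lift (fst _ _) (snd _ _ ≫ fst _ _)) (snd _ _ ≫ snd _ _), by
    apply prod_hom_ext
    · rw [Category.assoc, lift_fst, Category.id_comp]
      apply prod_hom_ext <;> simp
    · simp⟩

theorem Ret.assoc' (A B C : 𝒱.Obj) : Ret (A.prod (B.prod C)) ((A.prod B).prod C) :=
  ⟨Obj.lift (Obj.lift (fst _ _) (snd _ _ ≫ fst _ _)) (snd _ _ ≫ snd _ _),
    Obj.lift (fst _ _ ≫ fst _ _) (Obj.lift (fst _ _ ≫ snd _ _) (snd _ _)), by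
    apply prod_hom_ext
    · simp
    · rw [Category.assoc, lift_snd, Category.id_comp]
      apply prod_hom_ext <;> simp⟩

theorem Ret.diag (A : 𝒱.Obj) : Ret A (A.prod A) := ⟨Obj.lift (𝟙 _) (𝟙 _), fst _ _, by simp⟩

/-- `A × (B × C) → B × (A × C)` -/
theorem Ret.left (A B C : 𝒱.Obj) : Ret (A.prod (B.prod C)) (B.prod (A.prod C)) :=
  (Ret.assoc' A B C).trans (((Ret.swap A B).prod (Ret.refl C)).trans (Ret.assoc B A C))

/-- `(A × B) × (C × D) → (A × C) × (B × D)` -/
theorem Ret.mid (A B C D : 𝒱.Obj) :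
    Ret ((A.prod B).prod (C.prod D)) ((A.prod C).prod (B.prod D)) :=
  (Ret.assoc A B (C.prod D)).trans (((Ret.refl A).prod (Ret.left B C D)).trans
    (Ret.assoc' A C (B.prod D)))

theorem Ret.pw (X : 𝒱.Obj) (m n : ℕ) : Ret ((pw X m).prod (pw X n)) (pw X (m + n + 1)) := by
  induction n with
  | zero => exact Ret.refl _
  | succ n ih => exact (Ret.assoc' _ _ _).trans (ih.prod (Ret.refl X))

/-- The products of the members `x i`, `i ∈ S`, in any order. -/
inductive Wd {ι : Type*} (x : ι → 𝒱.Obj) (S : Set ι) : 𝒱.Obj → Prop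
  | of {i : ι} : i ∈ S → Wd x S (x i)
  | prod {P Q : 𝒱.Obj} : Wd x S P → Wd x S Q → Wd x S (P.prod Q)

theorem Wd.mono {ι : Type*} {x : ι → 𝒱.Obj} {S S' : Set ι} (hS : S ⊆ S') (h : Wd x S P) :
    Wd x S' P := by
  induction h with
  | of h => exact .of (hS h)
  | prod _ _ h1 h2 => exact .prod h1 h2

/-- the member `x i` can be collected -/
theorem Wd.peel {ι : Type*} {x : ι → 𝒱.Obj} {S : Set ι} (i : ι) (h : Wd x S P) :
    Wd x (S \ {i}) P ∨ (∃ n, Ret P (pw (x i) n)) ∨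
      ∃ n P', Wd x (S \ {i}) P' ∧ Ret P ((pw (x i) n).prod P') := by
  induction h with
  | @of j hj =>
    by_cases hji : j = i
    · subst hji
      exact Or.inr (Or.inl ⟨0, Ret.refl _⟩)
    · exact Or.inl (.of ⟨hj, hji⟩)
  | @prod A B _ _ h1 h2 =>
    rcases h1 with hA | ⟨m, hA⟩ | ⟨m, A', hA, hA'⟩ <;>
      rcases h2 with hB | ⟨n, hB⟩ | ⟨n, B', hB, hB'⟩
    · exact Or.inl (.prod hA hB)
    · exact Or.inr (Or.inr ⟨n, A, hA, (Ret.swap A B).trans (hB.prod (Ret.refl A))⟩)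
    · exact Or.inr (Or.inr ⟨n, A.prod B', .prod hA hB,
        ((Ret.refl A).prod hB').trans (Ret.left _ _ _)⟩)
    · exact Or.inr (Or.inr ⟨m, B, hB, hA.prod (Ret.refl B)⟩)
    · exact Or.inr (Or.inl ⟨_, (hA.prod hB).trans (Ret.pw _ _ _)⟩)
    · exact Or.inr (Or.inr ⟨_, B', hB, (hA.prod hB').trans ((Ret.assoc' _ _ _).trans
        ((Ret.pw _ _ _).prod (Ret.refl _)))⟩)
    · exact Or.inr (Or.inr ⟨m, A'.prod B, .prod hA hB, (hA'.prod (Ret.refl B)).trans
        (Ret.assoc _ _ _)⟩)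
    · exact Or.inr (Or.inr ⟨_, A', hA, (hA'.prod hB).trans ((Ret.swap _ _).trans
        ((Ret.assoc' _ _ _).trans ((Ret.pw _ _ _).prod (Ret.refl _))))⟩)
    · exact Or.inr (Or.inr ⟨_, A'.prod B', .prod hA hB, (hA'.prod hB').trans
        ((Ret.mid _ _ _ _).trans ((Ret.pw _ _ _).prod (Ret.refl _)))⟩)

theorem Wd.exists_finset {ι : Type*} [DecidableEq ι] {x : ι → 𝒱.Obj} {S : Set ι}
    (h : Wd x S P) : ∃ F : Finset ι, (F : Set ι) ⊆ S ∧ Wd x F P := by
  induction h with
  | @of j hj => exact ⟨{j}, by simpa using hj, .of (by simp)⟩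
  | @prod A B _ _ h1 h2 =>
    obtain ⟨F, hF, h1⟩ := h1
    obtain ⟨G, hG, h2⟩ := h2
    exact ⟨F ∪ G, by simp [hF, hG], .prod (h1.mono (by simp)) (h2.mono (by simp))⟩

theorem Wd.built {ι : Type*} {x : ι → 𝒱.Obj} {S : Set ι} (h : Wd x S P) :
    IF.Built T (x '' S) P := by
  induction h with
  | of h => exact .of (Set.mem_image_of_mem x h)
  | prod _ _ h1 h2 => exact .prod h1 h2

/-- **All products.** -/
theorem Wd.allIn {ι : Type v} {x : ι → 𝒱.Obj} {S : Set ι} {Q : ClassPred T.W}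
    (hind : ∀ F : Finset ι, IF.Ind (IF.LT T) x (F : Set ι))
    (hg : ∀ i n, AllIn T Q (Pool.Agent.Y133.Half.pw (x i) n)) (h : Wd x S P) : AllIn T Q P := by
  classical
  obtain ⟨F, -, h'⟩ := h.exists_finset
  clear h S
  rename' h' => h
  induction hn : F.card using Nat.strong_induction_on generalizing F P with
  | _ n ih =>
    rcases F.eq_empty_or_nonempty with rfl | ⟨i, hi⟩
    · exfalso
      clear ih hn
      induction h with
      | of h => simp at h
      | prod _ _ h1 _ => exact h1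
    · have hc : (F.erase i).card < n := by
        rw [← hn]
        exact Finset.card_erase_lt_of_mem hi
      have he : ((F : Set ι) \ {i}) = ((F.erase i : Finset ι) : Set ι) := by simp
      rcases h.peel i with h1 | ⟨m, h1⟩ | ⟨m, P', h1, h2⟩
      · rw [he] at h1
        exact ih _ hc (F.erase i) h1 rfl
      · exact h1.allIn (hg i m)
      · rw [he] at h1
        refine h2.allIn (prod_in ?_ (hg i m) (ih _ hc (F.erase i) h1 rfl))
        obtain ⟨G, hG, h3⟩ := (h1.built (T := T)).exists_finset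
        intro E hE
        obtain ⟨D', hD', h4⟩ := hind (insert i G) i (by simp) E hE
        refine ⟨D', hD'.1, ?_, ?_⟩
        · have h3 : IG.PP T x {i} (Pool.Agent.Y133.Half.pw (x i) m) := IG.PP.pow i m
          exact h3.agree hE hD'.1 fun j hj => by rw [Set.mem_singleton_iff.1 hj, h4]
        · refine h3.kill hD'.1 ?_
          rintro _ ⟨j, hj, rfl⟩
          refine hD'.2 j ⟨by simp [Finset.mem_coe.1 hj], ?_⟩
          rintro rfl
          exact absurd (hG hj) (by simp)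

end

end Pool.Agent.L5helper28.HI
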