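import Pool.Agent.L5helper28.HI.Ext
import Pool.Agent.L5helper28.HI.Ret

/-!
# The varieties whose motives are generated by the motives of the members of a family
-/

set_option autoImplicit false
set_option linter.unusedSectionVars false

open CategoryTheory AlgebraicGeometry

universe u v

namespace Pool.Agent.L5helper28.HI

open Module
open Pool.Agent.H914 Pool.Agent.H914.VarClass Pool.Agent.H914.VarClass.Obj
  Pool.Agent.H914.WeilCohomology
open Pool.Agent.Y121 Pool.Agent.Y121.AHS Pool.Agent.N996 Pool.Agent.N996.FP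
open Pool.Agent.Y133.Half (pw ClassPred Sys prod_hom_ext)
open Pool.Agent.L5helper28.CA (AllIn prod_in snd_in in_of_retract q_pow pw_prod_iff split_in)
open Pool.Agent.L5helper28.IF (Spl spH)
open Pool.Agent.L5helper28.IH

noncomputable section

variable {k : Type u} [Field k] {𝒱 : VarClass k} {ops : CycleOps 𝒱} {T : HodgeTheory ops}
  {Q : ClassPred T.W} {R X Y : 𝒱.Obj}

/-- The motive of `R` is a direct summand of a sum of Tate twists of the motives of the `P a`, for the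
correspondences given by the classes of the system `Q`. -/
def Sm (T : HodgeTheory ops) (Q : ClassPred T.W) {m : ℕ} (P : Fin m → 𝒱.Obj) (R : 𝒱.Obj) : Prop :=
  ∃ (u : ∀ a, T.W.H (R.prod (P a))) (v : ∀ a, T.W.H ((P a).prod R)),
    (∀ a, (∃ j, Q.P _ j (u a)) ∧ ∃ j, Q.P _ j (v a)) ∧
    ∀ x, ∑ a, T.W.corr (v a) (T.W.corr (u a) x) = x

/-- The varieties generated by the varieties in `S`. -/
inductive Fr (T : HodgeTheory ops) (Q : ClassPred T.W) (S : Set 𝒱.Obj) : 𝒱.Obj → Prop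
  | of {X : 𝒱.Obj} : X ∈ S → Fr T Q S X
  | prod {X Y : 𝒱.Obj} : Fr T Q S X → Fr T Q S Y → Fr T Q S (X.prod Y)
  | mot {m : ℕ} {P : Fin m → 𝒱.Obj} {R : 𝒱.Obj} : (∀ a, Fr T Q S (P a)) → Sm T Q P R →
      Fr T Q S R

theorem Sm.allIn (hQ : ∀ (X : 𝒱.Obj) (j : ℕ) (c : T.W.H X), Q.P X j c → IsHodge T X j c)
    {m : ℕ} {P : Fin m → 𝒱.Obj} (h : Sm T Q P R) (hP : ∀ a, AllIn T Q (P a)) : AllIn T Q R := by
  obtain ⟨u, v, h1, h2⟩ := h
  intro j c hc
  have h3 : c ∈ Q.sp R := by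
    rw [← h2 c]
    refine sum_mem fun a _ => ?_
    obtain ⟨⟨p, hp⟩, q, hq⟩ := h1 a
    have h4 : T.W.corr (u a) c ∈ spH T (P a) := by
      refine IF.spH_of (HG.corr_mem (AH.hodgePred (toH T)).sys ?_ ?_)
      · exact IF.of_spH (Submodule.subset_span ⟨p, hQ _ _ _ hp⟩)
      · exact IF.of_spH (Submodule.subset_span ⟨j, hc⟩)
    have h5 : T.W.corr (u a) c ∈ Q.sp (P a) := by
      refine (Submodule.span_le (p := Q.sp (P a))).2 ?_ h4
      rintro x ⟨i, hi⟩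
      exact ClassPred.sp_of (hP a i x hi)
    exact HG.corr_mem Q.sys (ClassPred.sp_of hq) h5
  have h4 := ClassPred.sp_proj h3 j
  rwa [H914.proj_same _ hc.1] at h4

theorem q_one (X : 𝒱.Obj) : Q.P X 0 (1 : T.W.H X) := by
  have h := q_pow (Q := Q) (Q.zero (X := X) (j := 0)) 0
  simpa using h

theorem q_cx {c : T.W.H (X.prod Y)} {j : ℕ} (hc : Q.P _ j c) (V : 𝒱.Obj) :
    Q.P _ (j + V.dim) (cx c V) := by
  refine Q.mul (Q.map _ hc) (Q.map _ ?_)
  exact Q.push (Obj.diag V) (j := 0) (l := V.dim) (by rw [dim_prod]; omega) (q_one V)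

theorem Sm.ext {m : ℕ} {P : Fin m → 𝒱.Obj} (h : Sm T Q P R) (V : 𝒱.Obj) :
    Sm T Q (fun a => (P a).prod V) (R.prod V) := by
  obtain ⟨u, v, h1, h2⟩ := h
  exact ⟨fun a => cx (u a) V, fun a => cx (v a) V,
    fun a => ⟨⟨_, q_cx (h1 a).1.choose_spec V⟩, ⟨_, q_cx (h1 a).2.choose_spec V⟩⟩,
    sum_cx h2 V⟩

/-- domination by a class of varieties -/
def Dom (T : HodgeTheory ops) (Q : ClassPred T.W) (N : 𝒱.Obj → Prop) (R : 𝒱.Obj) : Prop :=
  ∀ V, (∀ M, N M → AllIn T Q (M.prod V)) → AllIn T Q (R.prod V)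

theorem Fr.dom (hQ : ∀ (X : 𝒱.Obj) (j : ℕ) (c : T.W.H X), Q.P X j c → IsHodge T X j c)
    {N : 𝒱.Obj → Prop} (hN : ∀ A B, N A → N B → N (A.prod B)) {S : Set 𝒱.Obj}
    (hS : ∀ A ∈ S, N A) (h : Fr T Q S R) : Dom T Q N R := by
  induction h with
  | of h => exact fun V hV => hV _ (hS _ h)
  | @prod A B _ _ h1 h2 =>
    intro V hV
    refine (Ret.assoc A B V).allIn (h1 _ fun M hM => ?_)
    refine (Ret.left M B V).allIn (h2 _ fun M' hM' => ?_)
    exact (Ret.assoc' M' M V).allIn (hV _ (hN _ _ hM' hM))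
  | @mot m P R _ h2 h1 =>
    intro V hV
    exact (h2.ext V).allIn hQ fun a => h1 a V hV

theorem Fr.allIn (hQ : ∀ (X : 𝒱.Obj) (j : ℕ) (c : T.W.H X), Q.P X j c → IsHodge T X j c)
    {N : 𝒱.Obj → Prop} (hN : ∀ A B, N A → N B → N (A.prod B)) {S : Set 𝒱.Obj}
    (hS : ∀ A ∈ S, N A) (hA : ∀ A, N A → AllIn T Q A) (h : Fr T Q S R) : AllIn T Q R := by
  have hd := h.dom hQ hN hS
  refine (Ret.diag R).allIn (hd R fun M hM => ?_)
  exact (Ret.swap M R).allIn (hd M fun M' hM' => hA _ (hN _ _ hM' hM))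

theorem Fr.pw {S : Set 𝒱.Obj} (h : Fr T Q S R) (n : ℕ) :
    Fr T Q S (Pool.Agent.Y133.Half.pw R n) := by
  induction n with
  | zero => exact h
  | succ n ih => exact .prod ih h

theorem Fr.built (hQ : ∀ (X : 𝒱.Obj) (j : ℕ) (c : T.W.H X), Q.P X j c → IsHodge T X j c)
    {S : Set 𝒱.Obj} (h : Fr T Q S R) : IF.Built T S R := by
  induction h with
  | of h => exact .of h
  | prod _ _ h1 h2 => exact .prod h1 h2
  | @mot m P R _ hs ih =>
    obtain ⟨u, v, h1, h2⟩ := hs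
    choose h3 h4 using h1
    choose j hj using h4
    refine .gen _ _ (fun a => T.W.corr (v a))
      (fun a => (j a : ℤ) - (P a).dim) ih (fun a => isShift_corr (hQ _ _ _ (hj a))) ?_
    rw [eq_top_iff]
    intro y _
    rw [← h2 y]
    exact sum_mem fun a _ => Algebra.subset_adjoin (Set.mem_iUnion.2 ⟨a, _, rfl⟩)

/-- **The general theorem.** -/
theorem general (hQ : ∀ (X : 𝒱.Obj) (j : ℕ) (c : T.W.H X), Q.P X j c → IsHodge T X j c)
    {ι : Type v} (x : ι → 𝒱.Obj) (hx : ∀ i, ∃ ψ, IsPolarisation T (x i) ψ)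
    (hind : ∀ F : Finset ι, IF.Ind (IF.LT T) x (F : Set ι))
    (hg : ∀ i n, AllIn T Q (Pool.Agent.Y133.Half.pw (x i) n)) {Z : 𝒱.Obj}
    (hZ : ∃ ψ, IsPolarisation T Z ψ) : ∃ S : Set ι, S.Finite ∧ 2 * S.ncard ≤ transBetti T Z ∧
      ∀ P Y : 𝒱.Obj, Fr T Q (x '' Sᶜ) P → IF.Built T (insert Z (x '' S)) Y → ∀ n,
        AllIn T Q (Pool.Agent.Y133.Half.pw P n) ∧
          Spl T (Pool.Agent.Y133.Half.pw P n) (Pool.Agent.Y133.Half.pw Y n) := by
  obtain ⟨S, hS1, hS2⟩ := IG.exists_spl x hx hind hZ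
  refine ⟨S, S.finite_toSet, by rwa [Set.ncard_coe_finset], fun P Y hP hY n => ⟨?_, ?_⟩⟩
  · refine (hP.pw n).allIn hQ (N := Wd x (S : Set ι)ᶜ) (fun _ _ hA hB => .prod hA hB) ?_
      fun A hA => hA.allIn hind hg
    rintro _ ⟨i, hi, rfl⟩
    exact .of hi
  · exact hS2 _ _ (Or.inl ((hP.pw n).built hQ)) (IG.built_pow hY n)

end

end Pool.Agent.L5helper28.HI
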