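import Pool.Agent.L5helper28.HG.Defs
import Pool.Agent.H914R2.StdDefs

/-!
# The motives generated by the members of a family: definitions for motivated classes
-/

set_option autoImplicit false

universe u

namespace Pool.Agent.L5helper28.HI

open CategoryTheory AlgebraicGeometry
open Pool.Agent.H914 Pool.Agent.H914.VarClass Pool.Agent.H914.VarClass.Obj
open Pool.Agent.Y121.AHS (HodgeTheory IsHodge)
open Pool.Agent.L5helper28.HG (power SumOfProducts)

section

variable {K A B C : Type} [Field K] [Ring A] [Algebra K A] [Ring B] [Algebra K B] [Ring C]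
  [Algebra K C]

/-- The element `q (c * p x)`. -/
def corrApply (p : A →ₐ[K] C) (q : C →ₗ[K] B) (c : C) (x : A) : B := q (c * p x)

/-- The element `f x`. -/
def pull (f : A →ₐ[K] B) (x : A) : B := f x

/-- The element `f x`. -/
def push (f : A →ₗ[K] B) (x : A) : B := f x

/-- The element `r a + s b`. -/
def linear (r s : K) (a b : A) : A := r • a + s • b

/-- The element `a ^ m * b`. -/
def powMul (a : A) (m : ℕ) (b : A) : A := a ^ m * b

/-- The element `x` is in the subspace `V`. -/
def isIn (V : Submodule K A) (x : A) : Prop := x ∈ V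

/-- The value of `f` at `z`. -/
def classOf {G : Type*} [AddCommGroup G] (f : G →+ A) (z : G) : A := f z

end

variable {k : Type u} [Field k] {𝒱 : VarClass k} {ops : CycleOps 𝒱} (T : HodgeTheory ops)

/-- The motivated classes of degree `2 j` on `X` (André): the smallest system of classes on all varieties
which contains the classes of the algebraic cycles and is closed under linear combinations, products,
pull-backs, push-forwards and under the inverses of the isomorphisms of hard Lefschetz
`L ^ (dim X - 2 j) : H^(2 j)(X) → H^(2 dim X - 2 j)(X)`, where `L` is the product with the class of a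
divisor. -/
inductive IsMotivated : ∀ X : 𝒱.Obj, ℕ → T.W.H X → Prop
  | cl {X : 𝒱.Obj} {j : ℕ} {z : X.Cycles} : X.IsCyc j z → IsMotivated X j (classOf (T.W.cl X) z)
  | add {X : 𝒱.Obj} {j : ℕ} {a b : T.W.H X} (r s : T.W.K) : IsMotivated X j a →
      IsMotivated X j b → IsMotivated X j (linear r s a b)
  | mul {X : 𝒱.Obj} {i j : ℕ} {a b : T.W.H X} : IsMotivated X i a → IsMotivated X j b →
      IsMotivated X (i + j) (powMul a 1 b)
  | map {X Y : 𝒱.Obj} (f : X ⟶ Y) {j : ℕ} {a : T.W.H Y} : IsMotivated Y j a →
      IsMotivated X j (pull (T.W.map f) a)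
  | push {X Y : 𝒱.Obj} (f : X ⟶ Y) {j l : ℕ} {a : T.W.H X} : l + X.dim = j + Y.dim →
      IsMotivated X j a → IsMotivated Y l (push (T.W.push f) a)
  | lift {X : 𝒱.Obj} {D : X.Cycles} {j : ℕ} {x : T.W.H X} : X.IsCyc 1 D →
      HardLefschetz T.W X D → 2 * j ≤ X.dim → isIn (T.W.gr X (2 * j)) x →
      IsMotivated X (X.dim - j) (powMul (classOf (T.W.cl X) D) (X.dim - 2 * j) x) →
      IsMotivated X j x

/-- The class `c` is motivated. -/
def Motivated {X : 𝒱.Obj} (c : T.W.H X) : Prop := ∃ j, IsMotivated T X j c

/-- All Hodge classes on `X` are motivated. -/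
def AllMotivated (X : 𝒱.Obj) : Prop := ∀ j c, IsHodge T X j c → IsMotivated T X j c

/-- The Mumford-Tate group of `H(X)` is the motivic Galois group of the André motive of `X`: all Hodge
classes on all powers of `X` are motivated. -/
def MTIsMotivic (X : 𝒱.Obj) : Prop := ∀ n, AllMotivated T (power X n)

/-- Every motivated class on `P × Y` is a linear combination of products of motivated classes on `P`
and `Y`. -/
def Kunneth (P Y : 𝒱.Obj) : Prop := ∀ c : T.W.H (P.prod Y), Motivated T c →
  SumOfProducts (T.W.map (fst P Y)) (T.W.map (snd P Y)) (Motivated T) (Motivated T) c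

/-- The map `x ↦ pr₂_* (c · pr₁^* x)` from the cohomology of `A` to the cohomology of `B` which is
given by the class `c` on `A × B`. -/
noncomputable def act {A B : 𝒱.Obj} (c : T.W.H (A.prod B)) (x : T.W.H A) : T.W.H B :=
  corrApply (T.W.map (fst A B)) (T.W.push (snd A B)) c x

/-- The André motive of `Q` is a direct summand of a sum of Tate twists of the André motives of the
varieties `P a`: the identity of `H(Q)` is a finite sum of compositions `H(Q) → H(P a) → H(Q)` of maps
which are given by motivated classes. -/
def IsSummand {m : ℕ} (P : Fin m → 𝒱.Obj) (Q : 𝒱.Obj) : Prop :=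
  ∃ (u : ∀ a, T.W.H (Q.prod (P a))) (v : ∀ a, T.W.H ((P a).prod Q)),
    (∀ a, Motivated T (u a) ∧ Motivated T (v a)) ∧ ∀ x, ∑ a, act T (v a) (act T (u a) x) = x

/-- The André motive of the variety is in the tensor category generated by the motives of the varieties
in `S` (and the Tate motives): the smallest class of varieties which contains `S` and is closed under
products and direct summands (`IsSummand`). -/
inductive MotiveFrom (S : Set 𝒱.Obj) : 𝒱.Obj → Prop
  | of {X : 𝒱.Obj} : X ∈ S → MotiveFrom S X
  | prod {X Y : 𝒱.Obj} : MotiveFrom S X → MotiveFrom S Y → MotiveFrom S (X.prod Y)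
  | mot {m : ℕ} {P : Fin m → 𝒱.Obj} {Q : 𝒱.Obj} : (∀ a, MotiveFrom S (P a)) → IsSummand T P Q →
      MotiveFrom S Q

end Pool.Agent.L5helper28.HI
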