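import Pool.Agent.L5helper28.HI.MDefs
import Pool.Agent.L5helper28.HI.Gen
import Pool.Agent.L5helper28.HD.Main

/-!
# The motives generated by the members of a family: the theorem on motivated classes
-/

set_option autoImplicit false
set_option linter.unusedSectionVars false

open CategoryTheory AlgebraicGeometry TensorProduct

universe u v

namespace Pool.Agent.L5helper28.HI

open Module
open Pool.Agent.H914 Pool.Agent.H914.VarClass Pool.Agent.H914.VarClass.Obj
  Pool.Agent.H914.WeilCohomology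
open Pool.Agent.Y121 Pool.Agent.Y121.AHS Pool.Agent.N996 Pool.Agent.N996.FP
open Pool.Agent.Y133.Half (pw ClassPred Sys)
open Pool.Agent.R920.MT (motPred)
open Pool.Agent.L5helper28.CA (AllIn prod_in snd_in split_in sum_of one_pw pw_prod_iff)
open Pool.Agent.L5helper28.IF (Spl)
open Pool.Agent.L5helper28.IG (algPred)
open Pool.Agent.L5helper28.IH (ind_kinds)
open Pool.Agent.L5helper28.HG (coh AlgebraicIn Polarised NonIsogenous Independent hodgeNumber betti
  Built IsNonzero power power_eq polarised_of kinds_of noMor_of independent_iff number_le built_of)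

noncomputable section

variable {k : Type u} [Field k] {𝒱 : VarClass k} {ops : CycleOps 𝒱} {T : HodgeTheory ops}
  {P Y X : 𝒱.Obj}

/-- the families -/
theorem family {Q : ClassPred T.W} (hL : ∀ V, AlgebraicIn T V 1) {ι : Type v} {X : ι → 𝒱.Obj}
    (hX' : ∀ i, ∃ ψ, FP.IsPolarisation T (X i) ψ)
    (h : NonIsogenous (fun i => coh T (X i)) ∨
      Independent (fun i => coh T (X i)) ∧ ∀ i n, AllIn T Q (power (X i) n)) :
    (∀ F : Finset ι, IF.Ind (IF.LT T) X (F : Set ι)) ∧ ∀ i n, AllIn T Q (pw (X i) n) := by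
  rcases h with ⟨w, h1, h2⟩ | ⟨h1, h2⟩
  · refine ⟨ind_kinds hX' (fun i => (kinds_of (h1 i) (hX' i) hL).1)
      fun i j hij => noMor_of (h2 i j hij), fun i n j c hc => ?_⟩
    obtain ⟨z, hz, rfl⟩ := (kinds_of (h1 i) (hX' i) hL).2 n j c hc
    exact Q.cl hz
  · refine ⟨fun F => (IF.indep_of (independent_iff.1 h1)).ind F, fun i n => ?_⟩
    rw [← power_eq]
    exact h2 i n

theorem mot_hodge (X : 𝒱.Obj) (j : ℕ) (c : T.W.H X) (h : (motPred T.W).P X j c) :
    IsHodge T X j c := R920.MT.IsMotivated.hodge (T := toH T) h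

theorem mot_to {X : 𝒱.Obj} {j : ℕ} {c : T.W.H X} (h : IsMotivated T X j c) :
    (motPred T.W).P X j c := by
  induction h with
  | cl hz => exact (motPred T.W).cl hz
  | add r s _ _ h1 h2 => exact (motPred T.W).add ((motPred T.W).smul r h1) ((motPred T.W).smul s h2)
  | @mul X i j a b _ _ h1 h2 =>
    have h := (motPred T.W).mul h1 h2
    have e : powMul a 1 b = a * b := by rw [powMul, pow_one]
    rwa [e]
  | map f _ h => exact (motPred T.W).map f h
  | push f hl _ h => exact (motPred T.W).push f hl h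
  | lift hD hL hj hx _ h => exact fun P hP => hP.lift _ _ _ hD hL hj _ hx (h P hP)

theorem mot_zero (X : 𝒱.Obj) (j : ℕ) : IsMotivated T X j 0 := by
  have h : IsMotivated T X j (classOf (T.W.cl X) 0) := .cl (SmVar.IsCyc.zero _ _)
  have e : classOf (T.W.cl X) 0 = 0 := map_zero _
  rwa [e] at h

theorem mot_system : R920.MT.IsSystem (W := T.W) (IsMotivated T) where
  lin X j := ⟨{ carrier := {c | IsMotivated T X j c}
                add_mem' := fun {a b} ha hb => by
                  have h := IsMotivated.add (1 : T.W.K) 1 ha hb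
                  have e : linear (1 : T.W.K) 1 a b = a + b := by rw [linear, one_smul, one_smul]
                  rwa [e] at h
                zero_mem' := mot_zero X j
                smul_mem' := fun r a ha => by
                  have h := IsMotivated.add r 0 ha ha
                  have e : linear r (0 : T.W.K) a a = r • a := by rw [linear, zero_smul, add_zero]
                  rwa [e] at h }, fun _ => Iff.rfl⟩
  cl _ _ _ hz := .cl hz
  mul X i j a b ha hb := by
    have h := IsMotivated.mul ha hb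
    have e : powMul a 1 b = a * b := by rw [powMul, pow_one]
    rwa [e] at h
  map _ _ f _ _ h := .map f h
  push _ _ f _ _ _ hl h := .push f hl h
  lift _ _ _ hD hL hj _ hx h := .lift hD hL hj hx h

theorem mot_iff {X : 𝒱.Obj} {j : ℕ} {c : T.W.H X} :
    (motPred T.W).P X j c ↔ IsMotivated T X j c :=
  ⟨fun h => h _ mot_system, mot_to⟩

theorem mot_ex {X : 𝒱.Obj} {c : T.W.H X} (h : Motivated T c) : ∃ j, (motPred T.W).P X j c := by
  obtain ⟨j, h⟩ := h
  exact ⟨j, mot_to h⟩

theorem sm_of {m : ℕ} {P : Fin m → 𝒱.Obj} {R : 𝒱.Obj} (h : IsSummand T P R) :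
    Sm T (motPred T.W) P R := by
  obtain ⟨u, v, h1, h2⟩ := h
  exact ⟨u, v, fun a => ⟨mot_ex (h1 a).1, mot_ex (h1 a).2⟩, h2⟩

theorem fr_of {S : Set 𝒱.Obj} (h : MotiveFrom T S P) : Fr T (motPred T.W) S P := by
  induction h with
  | of h => exact .of h
  | prod _ _ h1 h2 => exact .prod h1 h2
  | mot _ h2 h1 => exact .mot h1 (sm_of h2)

theorem all_iff : AllMotivated T P ↔ AllIn T (motPred T.W) P :=
  forall_congr' fun _ => forall_congr' fun _ => imp_congr_right fun _ => mot_iff.symm

theorem mt_iff : MTIsMotivic T P ↔ ∀ n, AllIn T (motPred T.W) (pw P n) := by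
  refine forall_congr' fun n => ?_
  rw [power_eq]
  exact all_iff

/-- **The theorem on motivated classes.** -/
theorem mot_main (hL : ∀ V, AlgebraicIn T V 1) {ι : Type v} (X : ι → 𝒱.Obj)
    (hX : ∀ i, Polarised (coh T (X i)))
    (h : NonIsogenous (fun i => coh T (X i)) ∨
      Independent (fun i => coh T (X i)) ∧ ∀ i, MTIsMotivic T (X i)) (Z : 𝒱.Obj)
    (hZ : Polarised (coh T Z)) : ∃ S : Set ι, S.Finite ∧
      2 * S.ncard + hodgeNumber T Z ≤ betti T Z ∧ ∀ P Y : 𝒱.Obj, MotiveFrom T (X '' Sᶜ) P →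
      Built T (insert Z (X '' S)) Y → IsNonzero (T.W.H P) →
        MTIsMotivic T P ∧ Kunneth T P Y ∧
        (MTIsMotivic T (P.prod Y) ↔ MTIsMotivic T Y) ∧
        (Y.dim ≤ 3 → AllMotivated T (P.prod Y)) := by
  have hX' := fun i => polarised_of (hX i)
  obtain ⟨hind, hg⟩ := family (Q := motPred T.W) hL hX' (h.imp_right fun h => ⟨h.1, fun i n => all_iff.1 (h.2 i n)⟩)
  obtain ⟨S, h1, h2, h3⟩ := general (Q := motPred T.W) mot_hodge X hX' hind hg (polarised_of hZ)
  refine ⟨S, h1, number_le h2, fun P Y hP hY hP1 => ?_⟩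
  have h4 := h3 P Y (fr_of hP) (built_of hY)
  refine ⟨mt_iff.2 fun n => (h4 n).1, fun c hc => ?_, ?_, fun hd => ?_⟩
  · obtain ⟨j, hc⟩ := mot_ex hc
    have h5 := split_in (Q := motPred T.W) mot_hodge (h4 0).2 (h4 0).1
      (ClassPred.sp_of (Q := motPred T.W) hc)
    have h6 := sum_of (Q := motPred T.W) (M := {a | Motivated T a})
      (N := {b | Motivated T b}) (fun a i ha => ⟨i, mot_iff.1 ha⟩) (fun b i hb => ⟨i, mot_iff.1 hb⟩) h5
    refine Submodule.span_mono ?_ h6
    rintro x ⟨a, ha, b, hb, rfl⟩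
    exact ⟨a, b, ha, hb, rfl⟩
  · rw [mt_iff, mt_iff]
    exact ⟨fun h n => snd_in (one_pw hP1 n) ((pw_prod_iff (Q := motPred T.W) n).1 (h n)),
      fun h n => (pw_prod_iff (Q := motPred T.W) n).2 (prod_in (h4 n).2 (h4 n).1 (h n))⟩
  · rw [all_iff]
    refine prod_in (Q := motPred T.W) (h4 0).2 (h4 0).1 (HD.allIn_three ?_ hd)
    intro c hc
    obtain ⟨z, hz, rfl⟩ := hL Y c hc
    exact (motPred T.W).cl hz

end

end Pool.Agent.L5helper28.HI
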